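import Pool.Agent.Helper85.Flip.Dir

/-!
# Module FLIP-BLOCKS: the pockets of a chain with increasing good blocks are its blocks
-/

set_option autoImplicit false

namespace Pool.Agent.Helper20.Flip

namespace Blocks

lemma ht_nil (s : ℝ) : ht s [] = 0 := by simp [ht]

lemma ht_cons (s : ℝ) (e : Edge) (c : List Edge) : ht s (e :: c) = e.1 * Real.sin (e.2 - s) + ht s c := by
  simp [ht]

lemma Small.of_subset {c d : List Edge} (h : Small d) (hcd : ∀ e ∈ c, e ∈ d) : Small c :=
  fun e he => h e (hcd e he)

lemma sin_anti {θ s s' : ℝ} (hθ : |θ| ≤ 1 / 100) (hs : |s| ≤ 1 / 100) (hs' : |s'| ≤ 1 / 100)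
    (h : s < s') : Real.sin (θ - s') < Real.sin (θ - s) := by
  have h3 := Real.pi_gt_three
  rw [abs_le] at hθ hs hs'
  exact Real.sin_lt_sin_of_lt_of_le_pi_div_two (by linarith) (by linarith) (by linarith)

lemma ht_anti_le {c : List Edge} (h : Small c) {s s' : ℝ} (hs : |s| ≤ 1 / 100)
    (hs' : |s'| ≤ 1 / 100) (hlt : s < s') : ht s' c ≤ ht s c := by
  induction c with
  | nil => rw [ht_nil, ht_nil]
  | cons e c ih =>
    rw [ht_cons, ht_cons]
    have h1 := h e (by simp)
    have h2 := mul_lt_mul_of_pos_left (sin_anti h1.2 hs hs' hlt) h1.1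
    have h3 := ih (Small.of_subset h (by intro x hx; simp [hx]))
    linarith

lemma ht_anti {c : List Edge} (h : Small c) (hc : c ≠ []) {s s' : ℝ} (hs : |s| ≤ 1 / 100)
    (hs' : |s'| ≤ 1 / 100) (hlt : s < s') : ht s' c < ht s c := by
  cases c with
  | nil => exact absurd rfl hc
  | cons e c =>
    rw [ht_cons, ht_cons]
    have h1 := h e (by simp)
    have h2 := mul_lt_mul_of_pos_left (sin_anti h1.2 hs hs' hlt) h1.1
    have h3 := ht_anti_le (c := c) (Small.of_subset h (by intro x hx; simp [hx])) hs hs' hlt
    linarith

lemma abs_dir {c : List Edge} (h : Small c) (hc : c ≠ []) : |dir c| ≤ 1 / 100 := by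
  have := dir_mem h hc (lo := -(1 / 100)) (hi := 1 / 100) (fun e he => (abs_le.mp (h e he).2).1)
    (fun e he => (abs_le.mp (h e he).2).2)
  exact abs_le.mpr this

lemma ht_pos_of_lt {c : List Edge} (h : Small c) (hc : c ≠ []) {s : ℝ} (hs : |s| ≤ 1 / 100)
    (hlt : s < dir c) : 0 < ht s c := by
  have := ht_anti h hc hs (abs_dir h hc) hlt
  rwa [ht_dir h] at this

lemma ht_neg_of_lt {c : List Edge} (h : Small c) (hc : c ≠ []) {s : ℝ} (hs : |s| ≤ 1 / 100)
    (hlt : dir c < s) : ht s c < 0 := by
  have := ht_anti h hc (abs_dir h hc) hs hlt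
  rwa [ht_dir h] at this

/-- nonempty prefixes of blocks with larger direction are above -/
lemma prefix_pos {s : ℝ} (hs : |s| ≤ 1 / 100) (bs : List (List Edge)) (hsm : Small bs.flatten)
    (hg : ∀ b ∈ bs, GoodBlock b) (hd : ∀ b ∈ bs, s < dir b) :
    ∀ P Q, bs.flatten = P ++ Q → P ≠ [] → 0 < ht s P := by
  induction bs with
  | nil =>
    intro P Q h hP
    simp only [List.flatten_nil] at h
    exact absurd (List.append_eq_nil_iff.mp h.symm).1 hP
  | cons b rest ih =>
    intro P Q h hP
    have hb : Small b := Small.of_subset hsm fun e he => by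
      rw [List.flatten_cons, List.mem_append]; exact Or.inl he
    have hr : Small rest.flatten := Small.of_subset hsm fun e he => by
      rw [List.flatten_cons, List.mem_append]; exact Or.inr he
    have hgb := hg b (by simp)
    have hdb := hd b (by simp)
    have ih' := ih hr (fun b' hb' => hg b' (by simp [hb'])) (fun b' hb' => hd b' (by simp [hb']))
    have hbd := abs_dir hb hgb.1
    rw [List.flatten_cons, List.append_eq_append_iff] at h
    rcases h with ⟨a, ha, ha'⟩ | ⟨a, ha, ha'⟩
    · -- P = b ++ a
      rw [ha, ht_append]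
      have h1 := ht_pos_of_lt hb hgb.1 hs hdb
      by_cases ha0 : a = []
      · rw [ha0, ht_nil]; linarith
      · have := ih' a Q ha' ha0
        linarith
    · -- b = P ++ a
      by_cases ha0 : a = []
      · rw [ha0, List.append_nil] at ha
        rw [← ha]
        exact ht_pos_of_lt hb hgb.1 hs hdb
      · have h1 := hgb.2 P a ha hP ha0
        have h2 := ht_anti (c := P) (Small.of_subset hb fun e he => by
          rw [ha, List.mem_append]; exact Or.inl he) hP hs hbd hdb
        linarith

/-- nonempty suffixes of blocks with smaller direction are below -/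
lemma suffix_neg {s : ℝ} (hs : |s| ≤ 1 / 100) (bs : List (List Edge)) (hsm : Small bs.flatten)
    (hg : ∀ b ∈ bs, GoodBlock b) (hd : ∀ b ∈ bs, dir b < s) :
    ∀ P Q, bs.flatten = P ++ Q → Q ≠ [] → ht s Q < 0 := by
  induction bs with
  | nil =>
    intro P Q h hP
    simp only [List.flatten_nil] at h
    exact absurd (List.append_eq_nil_iff.mp h.symm).2 hP
  | cons b rest ih =>
    intro P Q h hQ
    have hb : Small b := Small.of_subset hsm fun e he => by
      rw [List.flatten_cons, List.mem_append]; exact Or.inl he
    have hr : Small rest.flatten := Small.of_subset hsm fun e he => by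
      rw [List.flatten_cons, List.mem_append]; exact Or.inr he
    have hgb := hg b (by simp)
    have hdb := hd b (by simp)
    have ih' := ih hr (fun b' hb' => hg b' (by simp [hb'])) (fun b' hb' => hd b' (by simp [hb']))
    have hbd := abs_dir hb hgb.1
    rw [List.flatten_cons, List.append_eq_append_iff] at h
    rcases h with ⟨a, ha, ha'⟩ | ⟨a, ha, ha'⟩
    · -- P = b ++ a
      exact ih' a Q ha' hQ
    · -- b = P ++ a, Q = a ++ rest.flatten
      rw [ha', ht_append]
      have hrest : ht s rest.flatten ≤ 0 := by
        by_cases h0 : rest.flatten = []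
        · rw [h0, ht_nil]
        · exact (ih' [] rest.flatten rfl h0).le
      by_cases ha0 : a = []
      · rw [ha0, ht_nil, zero_add]
        refine ih' [] rest.flatten rfl fun h0 => hQ ?_
        rw [ha', ha0, h0]
        rfl
      · have hsa : Small a := Small.of_subset hb fun e he => by
          rw [ha, List.mem_append]; exact Or.inr he
        have h1 : ht (dir b) a ≤ 0 := by
          by_cases hP : P = []
          · rw [hP, List.nil_append] at ha
            rw [← ha, ht_dir hb]
          · have h2 := hgb.2 P a ha hP ha0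
            have h3 := ht_dir hb
            have h4 : ht (dir b) b = ht (dir b) P + ht (dir b) a := by
              rw [← ht_append, ← ha]
            linarith
        have h5 := ht_anti hsa ha0 hbd hs hdb
        linarith

/-- cutting a flattened list -/
lemma cut {bs : List (List Edge)} {X Z : List Edge} (h : bs.flatten = X ++ Z) :
    (∃ bs₁ bs₂, bs = bs₁ ++ bs₂ ∧ X = bs₁.flatten ∧ Z = bs₂.flatten) ∨
    ∃ bs₁ bs₂ P Q, bs = bs₁ ++ [P ++ Q] ++ bs₂ ∧ P ≠ [] ∧ Q ≠ [] ∧ X = bs₁.flatten ++ P ∧
      Z = Q ++ bs₂.flatten := by
  rcases List.flatten_eq_append_iff.mp h with ⟨a, b, h1, h2, h3⟩ | ⟨a, b, c, cs, ds, h1, h2, h3⟩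
  · exact Or.inl ⟨a, b, h1, h2, h3⟩
  · by_cases hb : b = []
    · left
      refine ⟨a, (c :: cs) :: ds, ?_, ?_, ?_⟩
      · rw [h1, hb, List.nil_append]
      · rw [h2, hb, List.append_nil]
      · rw [h3, List.flatten_cons]
    · right
      refine ⟨a, ds, b, c :: cs, ?_, hb, by simp, h2, h3⟩
      rw [h1]
      simp

lemma hullBlock_of_split {bs₁ bs₂ : List (List Edge)} {B : List Edge}
    (hs : Small (bs₁ ++ [B] ++ bs₂).flatten)
    (hg : ∀ b ∈ bs₁ ++ [B] ++ bs₂, GoodBlock b)
    (hd : ((bs₁ ++ [B] ++ bs₂).map dir).Pairwise (· < ·)) (h2 : 2 ≤ B.length) :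
    HullBlock bs₁.flatten B bs₂.flatten := by
  have hgB : GoodBlock B := hg B (by simp)
  have hsB : Small B := Small.of_subset hs fun e he => by simp [he]
  have hs1 : Small bs₁.flatten := Small.of_subset hs fun e he => by
    simp only [List.flatten_append, List.mem_append]; exact Or.inl (Or.inl he)
  have hs2 : Small bs₂.flatten := Small.of_subset hs fun e he => by
    simp only [List.flatten_append, List.mem_append]; exact Or.inr he
  have hsd := abs_dir hsB hgB.1
  rw [List.map_append, List.map_append, List.pairwise_append] at hd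
  obtain ⟨hd1, _, hd2⟩ := hd
  rw [List.pairwise_append] at hd1
  obtain ⟨_, _, hd1⟩ := hd1
  have hA : ∀ b ∈ bs₁, dir b < dir B := fun b hb =>
    hd1 (dir b) (List.mem_map_of_mem hb) (dir B) (by simp)
  have hC : ∀ b ∈ bs₂, dir B < dir b := fun b hb =>
    hd2 (dir B) (by simp) (dir b) (List.mem_map_of_mem hb)
  refine ⟨h2, ?_, ?_, ?_, ?_⟩
  · intro P Q h
    by_cases hP : P = []
    · rw [hP, ht_nil]
    by_cases hQ : Q = []
    · rw [hQ, List.append_nil] at h
      rw [← h, ht_dir hsB]
    exact (hgB.2 P Q h hP hQ).le
  · refine ⟨B.take 1, B.drop 1, (List.take_append_drop 1 B).symm, ?_⟩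
    refine hgB.2 _ _ (List.take_append_drop 1 B).symm ?_ ?_
    · intro h
      have := congrArg List.length h
      rw [List.length_take, List.length_nil] at this
      omega
    · intro h
      have := congrArg List.length h
      rw [List.length_drop, List.length_nil] at this
      omega
  · exact prefix_pos hsd bs₂ hs2 (fun b hb => hg b (by simp [hb])) hC
  · exact suffix_neg hsd bs₁ hs1 (fun b hb => hg b (by simp [hb])) hA

end Blocks

open Blocks in
theorem hullBlock_iff {bs : List (List Edge)} (hs : Small bs.flatten)
    (hg : ∀ b ∈ bs, GoodBlock b) (hd : (bs.map dir).Pairwise (· < ·)) {X B Y : List Edge}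
    (h : bs.flatten = X ++ B ++ Y) :
    HullBlock X B Y ↔ 2 ≤ B.length ∧
      ∃ bs₁ bs₂, bs = bs₁ ++ [B] ++ bs₂ ∧ X = bs₁.flatten ∧ Y = bs₂.flatten := by
  constructor
  · rintro ⟨h2, hB, hB', hY, hX⟩
    refine ⟨h2, ?_⟩
    have hB0 : B ≠ [] := by rintro rfl; simp at h2
    have hsB : Small B := Small.of_subset hs fun e he => by
      rw [h]; simp [he]
    have hsd := abs_dir hsB hB0
    have hB0' := ht_dir hsB
    -- prefixes of `B ++ Y`
    have hpre : ∀ Q R, B ++ Y = Q ++ R → 0 ≤ ht (dir B) Q := by
      intro Q R hQR
      rw [List.append_eq_append_iff] at hQR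
      rcases hQR with ⟨a, ha, ha'⟩ | ⟨a, ha, ha'⟩
      · rw [ha, ht_append, hB0', zero_add]
        by_cases h0 : a = []
        · rw [h0, ht_nil]
        · exact (hY a R ha' h0).le
      · exact hB Q a ha
    rw [List.append_assoc] at h
    rcases cut h with ⟨bs₁, bs₂, hbs, hX1, hZ⟩ | ⟨bs₁, bs₂, P, Q, hbs, hP, hQ, hX1, hZ⟩
    · rcases cut hZ.symm with ⟨bs₃, bs₄, hbs', hB1, hY1⟩ | ⟨bs₃, bs₄, P, Q, hbs', hP, hQ, hB1, hY1⟩
      · -- the generic case
        refine ⟨bs₁, bs₄, ?_, hX1, hY1⟩
        rw [hbs, hbs', List.append_assoc]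
        congr 2
        -- bs₃ = [B]
        rcases bs₃ with _ | ⟨b₁, rest⟩
        · simp at hB1
          exact absurd hB1 hB0
        rcases List.eq_nil_or_concat rest with hr | ⟨mid, br, hr⟩
        · rw [hr] at hB1 ⊢
          simp at hB1
          rw [hB1]
        exfalso
        have hmem1 : b₁ ∈ bs := by rw [hbs, hbs']; simp
        have hmemr : br ∈ bs := by rw [hbs, hbs', hr]; simp
        have hg1 := hg b₁ hmem1
        have hgr := hg br hmemr
        have hs1 : Small b₁ := Small.of_subset hs fun e he => by
          rw [List.mem_flatten]; exact ⟨b₁, hmem1, he⟩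
        have hsr : Small br := Small.of_subset hs fun e he => by
          rw [List.mem_flatten]; exact ⟨br, hmemr, he⟩
        have hlt : dir b₁ < dir br := by
          rw [hbs, hbs', List.map_append, List.map_append, List.pairwise_append] at hd
          have h3 := hd.2.1
          rw [List.pairwise_append] at h3
          have h4 := h3.1
          rw [List.map_cons, List.pairwise_cons] at h4
          exact h4.1 _ (by rw [hr]; simp)
        have e1 : dir B ≤ dir b₁ := by
          by_contra hcon
          push Not at hcon
          have h5 := ht_neg_of_lt hs1 hg1.1 hsd hcon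
          have h6 := hB b₁ rest.flatten (by rw [hB1, List.flatten_cons])
          linarith
        have e2 : dir br ≤ dir B := by
          by_contra hcon
          push Not at hcon
          have h5 := ht_pos_of_lt hsr hgr.1 hsd hcon
          have h7 : B = (b₁ ++ mid.flatten) ++ br := by
            rw [hB1, hr]; simp
          have h6 := hB _ _ h7
          have h8 : ht (dir B) B = ht (dir B) (b₁ ++ mid.flatten) + ht (dir B) br := by
            rw [← ht_append, ← h7]
          linarith
        linarith
      · -- the cut between B and Y is interior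
        exfalso
        have hmem : P ++ Q ∈ bs := by rw [hbs, hbs']; simp
        have hgb := hg _ hmem
        have hsb : Small (P ++ Q) := Small.of_subset hs fun e he => by
          rw [List.mem_flatten]; exact ⟨_, hmem, he⟩
        have hsP : Small P := Small.of_subset hsb fun e he => by simp [he]
        have hsQ : Small Q := Small.of_subset hsb fun e he => by simp [he]
        have hbd := abs_dir hsb hgb.1
        have h1 := hY Q bs₄.flatten hY1 hQ
        have h3 := hgb.2 P Q rfl hP hQ
        have h4 : ht (dir (P ++ Q)) Q < 0 := by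
          have := ht_dir hsb
          rw [ht_append] at this
          linarith
        have h5 : ht (dir B) P ≤ 0 := by
          have h6 := hB bs₃.flatten P hB1
          have h7 : ht (dir B) B = ht (dir B) bs₃.flatten + ht (dir B) P := by
            rw [← ht_append, ← hB1]
          linarith
        rcases lt_trichotomy (dir B) (dir (P ++ Q)) with hlt | heq | hgt
        · have := ht_anti hsP hP hsd hbd hlt
          linarith
        · rw [heq] at h1; linarith
        · have := ht_anti hsQ hQ hbd hsd hgt
          linarith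
    · -- the cut between X and B is interior
      exfalso
      have hmem : P ++ Q ∈ bs := by rw [hbs]; simp
      have hgb := hg _ hmem
      have hsb : Small (P ++ Q) := Small.of_subset hs fun e he => by
        rw [List.mem_flatten]; exact ⟨_, hmem, he⟩
      have hsP : Small P := Small.of_subset hsb fun e he => by simp [he]
      have hsQ : Small Q := Small.of_subset hsb fun e he => by simp [he]
      have hbd := abs_dir hsb hgb.1
      have h1 := hX _ P hX1 hP
      have h3 := hgb.2 P Q rfl hP hQ
      have h4 : ht (dir (P ++ Q)) Q < 0 := by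
        have := ht_dir hsb
        rw [ht_append] at this
        linarith
      have h5 := hpre Q _ hZ
      rcases lt_trichotomy (dir B) (dir (P ++ Q)) with hlt | heq | hgt
      · have := ht_anti hsP hP hsd hbd hlt
        linarith
      · rw [heq] at h1; linarith
      · have := ht_anti hsQ hQ hbd hsd hgt
        linarith
  · rintro ⟨h2, bs₁, bs₂, hbs, rfl, rfl⟩
    subst hbs
    exact hullBlock_of_split hs hg hd h2

end Pool.Agent.Helper20.Flip
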