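import Pool.Agent.Helper20.Flip.Chain

/-!
# Module FLIP-GEO2: pockets of the polygon of a chain are the hull blocks of the chain
-/

set_option autoImplicit false

namespace Pool.Agent.Helper20.Flip

namespace Geo2

lemma vec_nil : vec [] = 0 := by simp [vec]

lemma vec_cons (e : Edge) (c : List Edge) :
    vec (e :: c) = (e.1 * Real.cos e.2 + (vec c).1, e.1 * Real.sin e.2 + (vec c).2) := by
  simp [vec]

lemma vec_append (c d : List Edge) : vec (c ++ d) = vec c + vec d := by
  simp [vec]

lemma ht_nil' (s : ℝ) : ht s [] = 0 := by simp [ht]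

lemma ht_append' (s : ℝ) (c d : List Edge) : ht s (c ++ d) = ht s c + ht s d := by
  simp [ht]

lemma ht_eq (s : ℝ) (c : List Edge) :
    ht s c = Real.cos s * (vec c).2 - Real.sin s * (vec c).1 := by
  induction c with
  | nil => simp [ht, vec]
  | cons e c ih =>
    have h1 : ht s (e :: c) = e.1 * Real.sin (e.2 - s) + ht s c := by simp [ht]
    rw [h1, ih, vec_cons, Real.sin_sub]
    ring

/-- admissible edges -/
def Good (c : List Edge) : Prop := ∀ e ∈ c, 0 < e.1 ∧ e.1 ≤ 2 ∧ |e.2| ≤ 1 / 100

lemma cos_ge {θ : ℝ} (h : |θ| ≤ 1 / 100) : 9 / 10 ≤ Real.cos θ := by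
  have h1 := Real.one_sub_sq_div_two_le_cos (x := θ)
  have h2 : θ ^ 2 ≤ (1 / 100) ^ 2 := by
    rw [← sq_abs]
    exact pow_le_pow_left₀ (abs_nonneg _) h 2
  linarith

lemma abs_sin_le' {θ : ℝ} (h : |θ| ≤ 1 / 100) : |Real.sin θ| ≤ 1 / 50 * Real.cos θ := by
  have h1 := cos_ge h
  have h2 : |Real.sin θ| ≤ |θ| := Real.abs_sin_le_abs
  linarith

lemma vec_good (c : List Edge) (h : Good c) : 0 ≤ (vec c).1 ∧ (vec c).1 ≤ 2 * c.length ∧
    |(vec c).2| ≤ 1 / 50 * (vec c).1 ∧ (c ≠ [] → 0 < (vec c).1) := by
  induction c with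
  | nil => simp [vec]
  | cons e c ih =>
    obtain ⟨h1, h2, h3⟩ := h e (by simp)
    obtain ⟨i1, i2, i3, -⟩ := ih fun x hx => h x (by simp [hx])
    rw [vec_cons]
    have hc := cos_ge h3
    have hc' := Real.cos_le_one e.2
    have hs := abs_sin_le' h3
    have hp : 0 < e.1 * Real.cos e.2 := mul_pos h1 (by linarith)
    have hq : e.1 * Real.cos e.2 ≤ 2 := by
      calc e.1 * Real.cos e.2 ≤ 2 * 1 := mul_le_mul h2 hc' (by linarith) (by linarith)
        _ = 2 := by norm_num
    simp only [List.length_cons]
    push_cast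
    refine ⟨by linarith, by linarith, ?_, fun _ => by linarith⟩
    calc |e.1 * Real.sin e.2 + (vec c).2| ≤ |e.1 * Real.sin e.2| + |(vec c).2| := abs_add_le _ _
      _ = e.1 * |Real.sin e.2| + |(vec c).2| := by rw [abs_mul, abs_of_pos h1]
      _ ≤ e.1 * (1 / 50 * Real.cos e.2) + 1 / 50 * (vec c).1 :=
          add_le_add (mul_le_mul_of_nonneg_left hs h1.le) i3
      _ = 1 / 50 * (e.1 * Real.cos e.2 + (vec c).1) := by ring

lemma vec_dir {B : List Edge} (h : Good B) (hB : B ≠ []) : ∃ r : ℝ, 0 < r ∧
    (vec B).1 = r * Real.cos (dir B) ∧ (vec B).2 = r * Real.sin (dir B) := by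
  have hx := (vec_good B h).2.2.2 hB
  have hc : 0 < Real.cos (dir B) := Real.cos_arctan_pos _
  refine ⟨(vec B).1 / Real.cos (dir B), div_pos hx hc, ?_, ?_⟩
  · field_simp
  · have h1 : Real.tan (dir B) = (vec B).2 / (vec B).1 := Real.tan_arctan _
    rw [div_mul_eq_mul_div, mul_div_assoc, ← Real.tan_eq_sin_div_cos, h1]
    field_simp

lemma polyOf_cast {N k : ℕ} (c : List Edge) (hk : k ≤ N) :
    polyOf N c (k : ZMod (N + 2)) = vec (c.take k) := by
  rw [polyOf, ZMod.val_natCast_of_lt (by omega), if_pos hk]

lemma polyOf_apex (N : ℕ) (c : List Edge) :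
    polyOf N c ((N + 1 : ℕ) : ZMod (N + 2)) = (0, 4 * ((N : ℝ) + 1)) := by
  rw [polyOf, ZMod.val_natCast_of_lt (by omega), if_neg (by omega)]

lemma exists_cast {N : ℕ} (k : ZMod (N + 2)) : ∃ a : ℕ, a ≤ N + 1 ∧ k = (a : ZMod (N + 2)) :=
  ⟨k.val, by have := k.val_lt; omega, (ZMod.natCast_zmod_val k).symm⟩

lemma Good.take {c : List Edge} (h : Good c) (k : ℕ) : Good (c.take k) :=
  fun e he => h e (List.mem_of_mem_take he)

lemma Good.drop {c : List Edge} (h : Good c) (k : ℕ) : Good (c.drop k) :=
  fun e he => h e (List.mem_of_mem_drop he)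

/-- differences of vertices -/
lemma vec_take_sub {c : List Edge} (h : Good c) {i j : ℕ} (hij : i ≤ j) (hj : j ≤ c.length) :
    (vec (c.take i)).1 ≤ (vec (c.take j)).1 ∧
    |(vec (c.take j)).2 - (vec (c.take i)).2| ≤
      1 / 50 * ((vec (c.take j)).1 - (vec (c.take i)).1) ∧
    (i < j → (vec (c.take i)).1 < (vec (c.take j)).1) := by
  have h1 : c.take j = c.take i ++ (c.drop i).take (j - i) := by
    rw [← List.take_add]; congr 1; omega
  have h2 := vec_good ((c.drop i).take (j - i)) ((h.drop i).take _)
  have e1 : (vec (c.take j)).1 = (vec (c.take i)).1 + (vec ((c.drop i).take (j - i))).1 := by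
    rw [h1, vec_append]; rfl
  have e2 : (vec (c.take j)).2 = (vec (c.take i)).2 + (vec ((c.drop i).take (j - i))).2 := by
    rw [h1, vec_append]; rfl
  refine ⟨by linarith [h2.1], ?_, ?_⟩
  · rw [e1, e2, add_sub_cancel_left, add_sub_cancel_left]
    exact h2.2.2.1
  · intro hlt
    have : (c.drop i).take (j - i) ≠ [] := by
      intro h0
      have := congrArg List.length h0
      rw [List.length_take, List.length_drop, List.length_nil] at this
      omega
    linarith [h2.2.2.2 this]

lemma vec_take_bd {c : List Edge} (h : Good c) {N : ℕ} (hN : c.length = N) (k : ℕ) :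
    0 ≤ (vec (c.take k)).1 ∧ (vec (c.take k)).1 ≤ 2 * N ∧ |(vec (c.take k)).2| ≤ N / 25 := by
  have h1 := vec_good (c.take k) (h.take k)
  have h2 : ((c.take k).length : ℝ) ≤ N := by
    rw [← hN]; exact_mod_cast List.length_take_le' k c
  refine ⟨h1.1, by linarith [h1.2.1], ?_⟩
  linarith [h1.2.2.1, h1.2.1]

/-- the apex is to the left of every chord -/
lemma cross_apex {c : List Edge} (h : Good c) {N : ℕ} (hN : c.length = N) {i j : ℕ} (hij : i < j)
    (hj : j ≤ N) : 0 < cross (vec (c.take i)) (vec (c.take j)) (0, 4 * ((N : ℝ) + 1)) := by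
  obtain ⟨-, h2, h3⟩ := vec_take_sub h hij.le (by omega)
  have h3 := h3 hij
  obtain ⟨b1, b2, b3⟩ := vec_take_bd h hN i
  rw [abs_le] at h2 b3
  have hN0 : (0 : ℝ) ≤ N := Nat.cast_nonneg N
  simp only [cross]
  set xi := (vec (c.take i)).1
  set yi := (vec (c.take i)).2
  set xj := (vec (c.take j)).1
  set yj := (vec (c.take j)).2
  have h4 : (yj - yi) * (0 - xi) ≤ (1 / 50 * (xj - xi)) * xi := by nlinarith
  have h5 : 0 < (xj - xi) * ((4 * ((N : ℝ) + 1) - yi) - 1 / 50 * xi) := by
    apply mul_pos (by linarith)
    linarith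
  nlinarith

/-- the fundamental formula -/
lemma cross_chord {c : List Edge} {i j : ℕ} {r s : ℝ}
    (h1 : (vec (c.take j)).1 - (vec (c.take i)).1 = r * Real.cos s)
    (h2 : (vec (c.take j)).2 - (vec (c.take i)).2 = r * Real.sin s) (k : ℕ) :
    cross (vec (c.take i)) (vec (c.take j)) (vec (c.take k)) =
      r * (ht s (c.take k) - ht s (c.take i)) := by
  rw [cross, h1, h2, ht_eq, ht_eq]
  ring

section block

variable {X B Y : List Edge}

lemma take_X : (X ++ B ++ Y).take X.length = X := by
  rw [List.append_assoc, List.take_left']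
  rfl

lemma take_XB : (X ++ B ++ Y).take (X.length + B.length) = X ++ B := by
  rw [List.take_left']
  simp

lemma chord (h : Good (X ++ B ++ Y)) (hB : B ≠ []) : ∃ r : ℝ, 0 < r ∧ ∀ k,
    cross (vec ((X ++ B ++ Y).take X.length)) (vec ((X ++ B ++ Y).take (X.length + B.length)))
      (vec ((X ++ B ++ Y).take k)) =
      r * (ht (dir B) ((X ++ B ++ Y).take k) - ht (dir B) X) := by
  have hgB : Good B := fun e he => h e (by simp [he])
  obtain ⟨r, hr, h1, h2⟩ := vec_dir hgB hB
  refine ⟨r, hr, fun k => ?_⟩
  rw [cross_chord (r := r) (s := dir B) _ _ k, take_X]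
  · rw [take_X, take_XB, vec_append, ← h1]
    simp
  · rw [take_X, take_XB, vec_append, ← h2]
    simp

lemma ht_dir' (h : Good B) (hB : B ≠ []) : ht (dir B) B = 0 := by
  obtain ⟨r, hr, h1, h2⟩ := vec_dir h hB
  rw [ht_eq, h1, h2]
  ring

end block

lemma segment_of_cross {A B C : Pt} (h0 : cross A B C = 0) (h1 : A.1 < B.1) (h2 : A.1 ≤ C.1)
    (h3 : C.1 ≤ B.1) : C ∈ segment ℝ A B := by
  rw [segment_eq_image]
  refine ⟨(C.1 - A.1) / (B.1 - A.1), ⟨div_nonneg (by linarith) (by linarith), ?_⟩, ?_⟩
  · rw [div_le_one (by linarith)]; linarith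
  · have hne : B.1 - A.1 ≠ 0 := by linarith
    rw [cross] at h0
    ext
    · simp only [Prod.fst_add, Prod.smul_fst, smul_eq_mul]
      field_simp
      ring
    · simp only [Prod.snd_add, Prod.smul_snd, smul_eq_mul]
      field_simp
      linarith

lemma segment_fst {A B C : Pt} (h : C ∈ segment ℝ A B) (h1 : A.1 < B.1) :
    A.1 ≤ C.1 ∧ C.1 ≤ B.1 := by
  rw [segment_eq_image] at h
  obtain ⟨t, ⟨ht0, ht1⟩, rfl⟩ := h
  simp only [Prod.fst_add, Prod.smul_fst, smul_eq_mul]
  constructor <;> nlinarith

end Geo2

open Geo2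

theorem isPocket_of_hullBlock {N : ℕ} {X B Y : List Edge} (h : Ok N (X ++ B ++ Y))
    (hb : HullBlock X B Y) :
    IsPocket (polyOf N (X ++ B ++ Y)) (X.length : ZMod (N + 2)) B.length := by
  obtain ⟨hlen, hN1, hgood⟩ := h
  have hg : Good (X ++ B ++ Y) := hgood
  obtain ⟨h2, hB, hB', hY, hX⟩ := hb
  have hB0 : B ≠ [] := by rintro rfl; simp at h2
  have hgB : Good B := fun e he => hg e (by simp [he])
  have hlen' : X.length + B.length + Y.length = N := by
    rw [← hlen]; simp [add_assoc]
  obtain ⟨r, hr, hchord⟩ := chord hg hB0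
  have hht0 := ht_dir' hgB hB0
  have e1 : polyOf N (X ++ B ++ Y) (X.length : ZMod (N + 2)) =
      vec ((X ++ B ++ Y).take X.length) := polyOf_cast _ (by omega)
  have e2 : polyOf N (X ++ B ++ Y) ((X.length : ZMod (N + 2)) + (B.length : ZMod (N + 2))) =
      vec ((X ++ B ++ Y).take (X.length + B.length)) := by
    rw [← Nat.cast_add]; exact polyOf_cast _ (by omega)
  have hlt := (vec_take_sub hg (i := X.length) (j := X.length + B.length) (by omega)
    (by omega)).2.2 (by omega)
  have key : ∀ k : ℕ, k ≤ N →
      0 ≤ cross (vec ((X ++ B ++ Y).take X.length))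
        (vec ((X ++ B ++ Y).take (X.length + B.length))) (vec ((X ++ B ++ Y).take k)) ∧
      (cross (vec ((X ++ B ++ Y).take X.length))
        (vec ((X ++ B ++ Y).take (X.length + B.length))) (vec ((X ++ B ++ Y).take k)) = 0 →
        X.length ≤ k ∧ k ≤ X.length + B.length) := by
    intro k hk
    rw [hchord k]
    rcases lt_or_ge k X.length with hk1 | hk1
    · -- before the block
      have t1 : (X ++ B ++ Y).take k = X.take k := by
        rw [List.append_assoc, List.take_append_of_le_length hk1.le]
      have t2 : ht (dir B) X = ht (dir B) (X.take k) + ht (dir B) (X.drop k) := by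
        rw [← ht_append', List.take_append_drop]
      have t3 := hX (X.take k) (X.drop k) (List.take_append_drop k X).symm (by
        intro h0
        have := congrArg List.length h0
        rw [List.length_drop, List.length_nil] at this
        omega)
      rw [t1, t2]
      have : 0 < r * (ht (dir B) (X.take k) - (ht (dir B) (X.take k) + ht (dir B) (X.drop k))) :=
        mul_pos hr (by linarith)
      exact ⟨this.le, fun h0 => absurd h0 this.ne'⟩
    · rcases le_or_gt k (X.length + B.length) with hk2 | hk2
      · refine ⟨mul_nonneg hr.le ?_, fun _ => ⟨hk1, hk2⟩⟩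
        obtain ⟨t, rfl⟩ := Nat.exists_eq_add_of_le hk1
        have t1 : (X ++ B ++ Y).take (X.length + t) = X ++ B.take t := by
          rw [List.append_assoc, List.take_length_add_append,
            List.take_append_of_le_length (by omega)]
        rw [t1, ht_append', add_sub_cancel_left]
        exact hB _ _ (List.take_append_drop t B).symm
      · obtain ⟨t, rfl⟩ := Nat.exists_eq_add_of_lt hk2
        have t1 : (X ++ B ++ Y).take (X.length + B.length + t + 1) = X ++ B ++ Y.take (t + 1) := by
          rw [add_assoc, ← List.length_append, List.take_length_add_append]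
        rw [t1, ht_append', ht_append', hht0]
        have t3 := hY (Y.take (t + 1)) (Y.drop (t + 1)) (List.take_append_drop _ Y).symm (by
          intro h0
          have := congrArg List.length h0
          rw [List.length_take, List.length_nil] at this
          omega)
        have : 0 < r * (ht (dir B) X + 0 + ht (dir B) (Y.take (t + 1)) - ht (dir B) X) :=
          mul_pos hr (by linarith)
        exact ⟨this.le, fun h0 => absurd h0 this.ne'⟩
  refine ⟨h2, by omega, ?_, ?_, ?_, ?_⟩
  · rw [e1, e2]
    intro h0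
    rw [h0] at hlt
    exact lt_irrefl _ hlt
  · intro k
    obtain ⟨a, ha, rfl⟩ := exists_cast k
    rw [e1, e2]
    rcases Nat.lt_or_ge N a with h1 | h1
    · have : a = N + 1 := by omega
      rw [this, polyOf_apex]
      exact (cross_apex hg hlen (by omega) (by omega)).le
    · rw [polyOf_cast _ h1]
      exact (key a h1).1
  · intro k
    obtain ⟨a, ha, rfl⟩ := exists_cast k
    rw [e1, e2]
    rcases Nat.lt_or_ge N a with h1 | h1
    · have : a = N + 1 := by omega
      rw [this, polyOf_apex]
      intro h0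
      exact absurd h0 (cross_apex hg hlen (by omega) (by omega)).ne'
    · rw [polyOf_cast _ h1]
      intro h0
      obtain ⟨k1, k2⟩ := (key a h1).2 h0
      exact segment_of_cross h0 hlt (vec_take_sub hg k1 (by omega)).1
        (vec_take_sub hg k2 (by omega)).1
  · obtain ⟨P, Q, hPQ, hpos⟩ := hB'
    have hP0 : P ≠ [] := by
      rintro rfl
      rw [ht_nil'] at hpos
      exact lt_irrefl _ hpos
    have hQ0 : Q ≠ [] := by
      rintro rfl
      rw [List.append_nil] at hPQ
      rw [← hPQ, hht0] at hpos
      exact lt_irrefl _ hpos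
    have hl : B.length = P.length + Q.length := by rw [hPQ]; simp
    have hPl : 0 < P.length := List.length_pos_iff.mpr hP0
    have hQl : 0 < Q.length := List.length_pos_iff.mpr hQ0
    refine ⟨P.length, hPl, by omega, ?_⟩
    rw [e1, e2, ← Nat.cast_add, polyOf_cast _ (by omega), hchord]
    have t1 : (X ++ B ++ Y).take (X.length + P.length) = X ++ P := by
      rw [List.append_assoc, List.take_length_add_append, hPQ, List.append_assoc,
        List.take_left']
      rfl
    rw [t1, ht_append', add_sub_cancel_left]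
    exact mul_pos hr hpos

theorem hullBlock_of_isPocket {N : ℕ} {c : List Edge} (h : Ok N c) {i : ZMod (N + 2)} {m : ℕ}
    (hp : IsPocket (polyOf N c) i m) :
    ∃ X B Y, c = X ++ B ++ Y ∧ HullBlock X B Y ∧ i = (X.length : ZMod (N + 2)) ∧
      m = B.length := by
  obtain ⟨hlen, hN1, hgood⟩ := h
  have hg : Good c := hgood
  obtain ⟨hm2, hmN, hne, hnn, hseg, t, ht0, htm, htpos⟩ := hp
  obtain ⟨a, ha, rfl⟩ := exists_cast i
  have hN0 : (0 : ℝ) ≤ N := Nat.cast_nonneg N
  rcases Nat.lt_or_ge N a with ha1 | ha1
  · -- start at the apex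
    exfalso
    obtain rfl : a = N + 1 := by omega
    have e2 : ((N + 1 : ℕ) : ZMod (N + 2)) + (m : ZMod (N + 2)) = ((m - 1 : ℕ) : ZMod (N + 2)) := by
      rw [← Nat.cast_add, show N + 1 + m = (m - 1) + (N + 2) by omega, Nat.cast_add (m - 1),
        ZMod.natCast_self, add_zero]
    have h1 := hnn ((0 : ℕ) : ZMod (N + 2))
    rw [e2, polyOf_apex, polyOf_cast _ (by omega : m - 1 ≤ N), polyOf_cast _ (by omega : 0 ≤ N),
      List.take_zero, vec_nil, cross] at h1
    have h2 := (vec_take_sub hg (i := 0) (j := m - 1) (by omega) (by omega)).2.2 (by omega)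
    rw [List.take_zero, vec_nil] at h2
    simp only [Prod.fst_zero, Prod.snd_zero] at h1 h2
    nlinarith
  rcases Nat.lt_or_ge N (a + m) with ham | ham
  · exfalso
    rcases Nat.lt_or_ge (N + 1) (a + m) with ham2 | ham2
    · -- wrap around
      have e2 : (a : ZMod (N + 2)) + (m : ZMod (N + 2)) = ((a + m - (N + 2) : ℕ) : ZMod (N + 2)) := by
        rw [← Nat.cast_add]
        conv_lhs => rw [show a + m = (a + m - (N + 2)) + (N + 2) by omega]
        rw [Nat.cast_add _ (N + 2), ZMod.natCast_self, add_zero]
      have h1 := hnn ((N + 1 : ℕ) : ZMod (N + 2))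
      rw [e2, polyOf_apex, polyOf_cast _ ha1, polyOf_cast _ (by omega : a + m - (N + 2) ≤ N)] at h1
      have h2 := cross_apex hg hlen (i := a + m - (N + 2)) (j := a) (by omega) ha1
      have h3 : cross (vec (c.take a)) (vec (c.take (a + m - (N + 2)))) (0, 4 * ((N : ℝ) + 1)) =
          - cross (vec (c.take (a + m - (N + 2)))) (vec (c.take a)) (0, 4 * ((N : ℝ) + 1)) := by
        simp only [cross]; ring
      linarith
    · -- end at the apex
      have e2 : (a : ZMod (N + 2)) + (m : ZMod (N + 2)) = ((N + 1 : ℕ) : ZMod (N + 2)) := by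
        rw [← Nat.cast_add]; congr 1; omega
      have h1 := hnn ((N : ℕ) : ZMod (N + 2))
      rw [e2, polyOf_apex, polyOf_cast _ ha1, polyOf_cast _ (le_refl N)] at h1
      have h2 := cross_apex hg hlen (i := a) (j := N) (by omega) le_rfl
      have h3 : cross (vec (c.take a)) (0, 4 * ((N : ℝ) + 1)) (vec (c.take N)) =
          - cross (vec (c.take a)) (vec (c.take N)) (0, 4 * ((N : ℝ) + 1)) := by
        simp only [cross]; ring
      linarith
  -- the generic case
  set X := c.take a with hX
  set B := (c.drop a).take m with hB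
  set Y := (c.drop a).drop m with hY
  have hXl : X.length = a := by rw [hX, List.length_take]; omega
  have hBl : B.length = m := by rw [hB, List.length_take, List.length_drop]; omega
  have hc : c = X ++ B ++ Y := by
    rw [hX, hB, hY, List.append_assoc, List.take_append_drop, List.take_append_drop]
  clear_value X B Y
  subst hc
  have hB0 : B ≠ [] := by
    rintro rfl
    simp at hBl
    omega
  obtain ⟨r, hr, hchord⟩ := chord hg hB0
  have hgB : Good B := fun e he => hg e (by simp [he])
  have hht0 := ht_dir' hgB hB0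
  have hlen' : X.length + B.length + Y.length = N := by
    rw [← hlen]; simp [add_assoc]
  rw [← hXl, ← hBl] at hnn hseg htpos
  have e1 : polyOf N (X ++ B ++ Y) (X.length : ZMod (N + 2)) =
      vec ((X ++ B ++ Y).take X.length) := polyOf_cast _ (by omega)
  have e2 : polyOf N (X ++ B ++ Y) ((X.length : ZMod (N + 2)) + (B.length : ZMod (N + 2))) =
      vec ((X ++ B ++ Y).take (X.length + B.length)) := by
    rw [← Nat.cast_add]; exact polyOf_cast _ (by omega)
  rw [e1, e2] at hnn hseg htpos
  have hlt := (vec_take_sub hg (i := X.length) (j := X.length + B.length) (by omega)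
    (by omega)).2.2 (by omega)
  have hnn' : ∀ k ≤ N, 0 ≤ r * (ht (dir B) ((X ++ B ++ Y).take k) - ht (dir B) X) := by
    intro k hk
    have := hnn (k : ZMod (N + 2))
    rwa [polyOf_cast _ hk, hchord] at this
  have hseg' : ∀ k ≤ N, r * (ht (dir B) ((X ++ B ++ Y).take k) - ht (dir B) X) = 0 →
      X.length ≤ k ∧ k ≤ X.length + B.length := by
    intro k hk h0
    have h1 := hseg (k : ZMod (N + 2))
    rw [polyOf_cast _ hk, hchord] at h1
    have h2 := segment_fst (h1 h0) hlt
    constructor
    · by_contra hcon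
      have := (vec_take_sub hg (i := k) (j := X.length) (by omega) (by omega)).2.2 (by omega)
      linarith [h2.1]
    · by_contra hcon
      have := (vec_take_sub hg (i := X.length + B.length) (j := k) (by omega) (by omega)).2.2
        (by omega)
      linarith [h2.2]
  refine ⟨X, B, Y, rfl, ⟨by omega, ?_, ?_, ?_, ?_⟩, by rw [hXl], hBl.symm⟩
  · intro P Q hPQ
    have hl : B.length = P.length + Q.length := by rw [hPQ]; simp
    have h1 := hnn' (X.length + P.length) (by omega)
    have t1 : (X ++ B ++ Y).take (X.length + P.length) = X ++ P := by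
      rw [List.append_assoc, List.take_length_add_append, hPQ, List.append_assoc,
        List.take_left']
      rfl
    rw [t1, ht_append', add_sub_cancel_left] at h1
    exact nonneg_of_mul_nonneg_right h1 hr
  · refine ⟨B.take t, B.drop t, (List.take_append_drop t B).symm, ?_⟩
    rw [← Nat.cast_add, polyOf_cast _ (by omega), hchord] at htpos
    have t1 : (X ++ B ++ Y).take (X.length + t) = X ++ B.take t := by
      rw [List.append_assoc, List.take_length_add_append,
        List.take_append_of_le_length (by omega)]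
    rw [t1, ht_append', add_sub_cancel_left] at htpos
    exact (pos_iff_pos_of_mul_pos htpos).mp hr
  · intro P Q hPQ hP0
    have hl : Y.length = P.length + Q.length := by rw [hPQ]; simp
    have hPl : 0 < P.length := List.length_pos_iff.mpr hP0
    have t1 : (X ++ B ++ Y).take (X.length + B.length + P.length) = X ++ B ++ P := by
      rw [← List.length_append, List.take_length_add_append, hPQ, List.take_left']
      rfl
    have h1 := hnn' (X.length + B.length + P.length) (by omega)
    have h2 := hseg' (X.length + B.length + P.length) (by omega)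
    rw [t1, ht_append', ht_append', hht0] at h1 h2
    have h3 : 0 ≤ ht (dir B) P := by
      have := nonneg_of_mul_nonneg_right h1 hr
      linarith
    rcases h3.lt_or_eq with h4 | h4
    · exact h4
    · exfalso
      have := h2 (by rw [← h4]; ring)
      omega
  · intro P Q hPQ hQ0
    have hl : X.length = P.length + Q.length := by rw [hPQ]; simp
    have hQl : 0 < Q.length := List.length_pos_iff.mpr hQ0
    have t1 : (X ++ B ++ Y).take P.length = P := by
      rw [hPQ, List.append_assoc, List.append_assoc, List.take_left']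
      rfl
    have h1 := hnn' P.length (by omega)
    have h2 := hseg' P.length (by omega)
    have t2 : ht (dir B) X = ht (dir B) P + ht (dir B) Q := by rw [hPQ, ht_append']
    rw [t1, t2] at h1 h2
    have h3 : ht (dir B) Q ≤ 0 := by
      have := nonneg_of_mul_nonneg_right h1 hr
      linarith
    rcases h3.lt_or_eq with h4 | h4
    · exact h4
    · exfalso
      have := h2 (by rw [h4]; ring)
      omega

end Pool.Agent.Helper20.Flip
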