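import Pool.Agent.Helper98.Flip.Blocks

/-!
# Module FLIP-S-WBLOCKS: the pockets of a chain of good blocks, ties allowed between single edges
-/

set_option autoImplicit false

namespace Pool.Agent.Helper20.Flip

namespace Blocks

lemma hullBlock_of_split' {bs₁ bs₂ : List (List Edge)} {B : List Edge}
    (hs : Small (bs₁ ++ [B] ++ bs₂).flatten)
    (hg : ∀ b ∈ bs₁ ++ [B] ++ bs₂, GoodBlock b)
    (hd : (bs₁ ++ [B] ++ bs₂).Pairwise fun b b' =>
      dir b < dir b' ∨ (b.length = 1 ∧ b'.length = 1 ∧ dir b = dir b')) (h2 : 2 ≤ B.length) :
    HullBlock bs₁.flatten B bs₂.flatten := by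
  have hgB : GoodBlock B := hg B (by simp)
  have hsB : Small B := Small.of_subset hs fun e he => by simp [he]
  have hs1 : Small bs₁.flatten := Small.of_subset hs fun e he => by
    simp only [List.flatten_append, List.mem_append]; exact Or.inl (Or.inl he)
  have hs2 : Small bs₂.flatten := Small.of_subset hs fun e he => by
    simp only [List.flatten_append, List.mem_append]; exact Or.inr he
  have hsd := abs_dir hsB hgB.1
  rw [List.pairwise_append] at hd
  obtain ⟨hd1, _, hd2⟩ := hd
  rw [List.pairwise_append] at hd1
  obtain ⟨_, _, hd1⟩ := hd1
  have hA : ∀ b ∈ bs₁, dir b < dir B := fun b hb => by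
    rcases hd1 b hb B (by simp) with h | h
    · exact h
    · omega
  have hC : ∀ b ∈ bs₂, dir B < dir b := fun b hb => by
    rcases hd2 B (by simp) b hb with h | h
    · exact h
    · omega
  refine ⟨h2, ?_, ?_, ?_, ?_⟩
  · intro P Q h
    by_cases hP : P = []
    · rw [hP, ht_nil]
    by_cases hQ : Q = []
    · rw [hQ, List.append_nil] at h
      rw [← h, ht_dir hsB]
    exact (hgB.2 P Q h hP hQ).le
  · refine ⟨B.take 1, B.drop 1, (List.take_append_drop 1 B).symm, ?_⟩
    refine hgB.2 _ _ (List.take_append_drop 1 B).symm ?_ ?_
    · intro h
      have := congrArg List.length h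
      rw [List.length_take, List.length_nil] at this
      omega
    · intro h
      have := congrArg List.length h
      rw [List.length_drop, List.length_nil] at this
      omega
  · exact prefix_pos hsd bs₂ hs2 (fun b hb => hg b (by simp [hb])) hC
  · exact suffix_neg hsd bs₁ hs1 (fun b hb => hg b (by simp [hb])) hA

/-- chains of parallel edges have height zero in their direction -/
lemma ht_zero {s : ℝ} {c : List Edge} (h : ∀ e ∈ c, e.2 = s) : ht s c = 0 := by
  induction c with
  | nil => exact ht_nil s
  | cons e c ih =>
    rw [ht_cons, h e (by simp), sub_self, Real.sin_zero, mul_zero, zero_add]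
    exact ih fun e' he' => h e' (by simp [he'])

end Blocks

open Blocks in
theorem hullBlock_iff' {bs : List (List Edge)} (hs : Small bs.flatten)
    (hg : ∀ b ∈ bs, GoodBlock b)
    (hd : bs.Pairwise fun b b' => dir b < dir b' ∨ (b.length = 1 ∧ b'.length = 1 ∧ dir b = dir b'))
    {X B Y : List Edge} (h : bs.flatten = X ++ B ++ Y) :
    HullBlock X B Y ↔ 2 ≤ B.length ∧
      ∃ bs₁ bs₂, bs = bs₁ ++ [B] ++ bs₂ ∧ X = bs₁.flatten ∧ Y = bs₂.flatten := by
  constructor
  · rintro ⟨h2, hB, hB', hY, hX⟩
    refine ⟨h2, ?_⟩
    have hB0 : B ≠ [] := by rintro rfl; simp at h2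
    have hsB : Small B := Small.of_subset hs fun e he => by
      rw [h]; simp [he]
    have hsd := abs_dir hsB hB0
    have hB0' := ht_dir hsB
    -- prefixes of `B ++ Y`
    have hpre : ∀ Q R, B ++ Y = Q ++ R → 0 ≤ ht (dir B) Q := by
      intro Q R hQR
      rw [List.append_eq_append_iff] at hQR
      rcases hQR with ⟨a, ha, ha'⟩ | ⟨a, ha, ha'⟩
      · rw [ha, ht_append, hB0', zero_add]
        by_cases h0 : a = []
        · rw [h0, ht_nil]
        · exact (hY a R ha' h0).le
      · exact hB Q a ha
    rw [List.append_assoc] at h
    rcases cut h with ⟨bs₁, bs₂, hbs, hX1, hZ⟩ | ⟨bs₁, bs₂, P, Q, hbs, hP, hQ, hX1, hZ⟩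
    · rcases cut hZ.symm with ⟨bs₃, bs₄, hbs', hB1, hY1⟩ | ⟨bs₃, bs₄, P, Q, hbs', hP, hQ, hB1, hY1⟩
      · -- the generic case
        refine ⟨bs₁, bs₄, ?_, hX1, hY1⟩
        rw [hbs, hbs', List.append_assoc]
        congr 2
        -- bs₃ = [B]
        rcases bs₃ with _ | ⟨b₁, rest⟩
        · simp at hB1
          exact absurd hB1 hB0
        rcases List.eq_nil_or_concat rest with hr | ⟨mid, br, hr⟩
        · rw [hr] at hB1 ⊢
          simp at hB1
          rw [hB1]
        exfalso
        have hmem : ∀ b ∈ b₁ :: rest, b ∈ bs := fun b hb => by
          rw [hbs, hbs', List.mem_append, List.mem_append]; exact Or.inr (Or.inl hb)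
        have hmem1 : b₁ ∈ bs := hmem b₁ (by simp)
        have hmemr : br ∈ bs := hmem br (by rw [hr]; simp)
        have hg1 := hg b₁ hmem1
        have hgr := hg br hmemr
        have hsm : ∀ b ∈ bs, Small b := fun b hb => Small.of_subset hs fun e he => by
          rw [List.mem_flatten]; exact ⟨b, hb, he⟩
        have hs1 : Small b₁ := hsm b₁ hmem1
        have hsr : Small br := hsm br hmemr
        rw [hbs, hbs', List.pairwise_append] at hd
        have h3 := hd.2.1
        rw [List.pairwise_append] at h3
        have h4 := h3.1
        have h5 := List.pairwise_cons.mp h4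
        have hlt := h5.1 br (by rw [hr]; simp)
        have e1 : dir B ≤ dir b₁ := by
          by_contra hcon
          push Not at hcon
          have h5 := ht_neg_of_lt hs1 hg1.1 hsd hcon
          have h6 := hB b₁ rest.flatten (by rw [hB1, List.flatten_cons])
          linarith
        have e2 : dir br ≤ dir B := by
          by_contra hcon
          push Not at hcon
          have h5 := ht_pos_of_lt hsr hgr.1 hsd hcon
          have h7 : B = (b₁ ++ mid.flatten) ++ br := by
            rw [hB1, hr]; simp
          have h6 := hB _ _ h7
          have h8 : ht (dir B) B = ht (dir B) (b₁ ++ mid.flatten) + ht (dir B) br := by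
            rw [← ht_append, ← h7]
          linarith
        rcases hlt with hlt | ⟨hl1, hlr, hdd⟩
        · linarith
        have hd1 : dir b₁ = dir B := le_antisymm (by linarith) e1
        -- all blocks are single edges of direction `dir B`
        have hall : ∀ b ∈ b₁ :: rest, b.length = 1 ∧ dir b = dir B := by
          intro b hb
          rcases List.mem_cons.mp hb with hb1 | hb1
          · rw [hb1]; exact ⟨hl1, hd1⟩
          · rcases h5.1 b hb1 with h6 | ⟨_, h6, h7⟩
            · exfalso
              rw [hr, List.concat_eq_append, List.mem_append, List.mem_singleton] at hb1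
              rcases hb1 with hb1 | hb1
              · have h8 := h5.2
                rw [hr, List.concat_eq_append, List.pairwise_append] at h8
                rcases h8.2.2 b hb1 br (by simp) with h9 | ⟨_, _, h9⟩
                · linarith
                · linarith
              · rw [hb1] at h6
                linarith
            · exact ⟨h6, by rw [← h7, hd1]⟩
        have hedge : ∀ e ∈ B, e.2 = dir B := by
          intro e he
          rw [hB1, List.mem_flatten] at he
          obtain ⟨b, hb, heb⟩ := he
          obtain ⟨hb1, hb2⟩ := hall b hb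
          obtain ⟨e', he'⟩ := List.length_eq_one_iff.mp hb1
          have hsb := hsm b (hmem b hb)
          rw [he'] at heb hsb hb2
          rw [List.mem_singleton] at heb
          rw [heb, ← hb2, dir_singleton hsb]
        obtain ⟨P, Q, hPQ, hpos⟩ := hB'
        have h0 : ht (dir B) P = 0 := ht_zero fun e he => hedge e (by rw [hPQ]; simp [he])
        linarith
      · -- the cut between B and Y is interior
        exfalso
        have hmem : P ++ Q ∈ bs := by rw [hbs, hbs']; simp
        have hgb := hg _ hmem
        have hsb : Small (P ++ Q) := Small.of_subset hs fun e he => by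
          rw [List.mem_flatten]; exact ⟨_, hmem, he⟩
        have hsP : Small P := Small.of_subset hsb fun e he => by simp [he]
        have hsQ : Small Q := Small.of_subset hsb fun e he => by simp [he]
        have hbd := abs_dir hsb hgb.1
        have h1 := hY Q bs₄.flatten hY1 hQ
        have h3 := hgb.2 P Q rfl hP hQ
        have h4 : ht (dir (P ++ Q)) Q < 0 := by
          have := ht_dir hsb
          rw [ht_append] at this
          linarith
        have h5 : ht (dir B) P ≤ 0 := by
          have h6 := hB bs₃.flatten P hB1
          have h7 : ht (dir B) B = ht (dir B) bs₃.flatten + ht (dir B) P := by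
            rw [← ht_append, ← hB1]
          linarith
        rcases lt_trichotomy (dir B) (dir (P ++ Q)) with hlt | heq | hgt
        · have := ht_anti hsP hP hsd hbd hlt
          linarith
        · rw [heq] at h1; linarith
        · have := ht_anti hsQ hQ hbd hsd hgt
          linarith
    · -- the cut between X and B is interior
      exfalso
      have hmem : P ++ Q ∈ bs := by rw [hbs]; simp
      have hgb := hg _ hmem
      have hsb : Small (P ++ Q) := Small.of_subset hs fun e he => by
        rw [List.mem_flatten]; exact ⟨_, hmem, he⟩
      have hsP : Small P := Small.of_subset hsb fun e he => by simp [he]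
      have hsQ : Small Q := Small.of_subset hsb fun e he => by simp [he]
      have hbd := abs_dir hsb hgb.1
      have h1 := hX _ P hX1 hP
      have h3 := hgb.2 P Q rfl hP hQ
      have h4 : ht (dir (P ++ Q)) Q < 0 := by
        have := ht_dir hsb
        rw [ht_append] at this
        linarith
      have h5 := hpre Q _ hZ
      rcases lt_trichotomy (dir B) (dir (P ++ Q)) with hlt | heq | hgt
      · have := ht_anti hsP hP hsd hbd hlt
        linarith
      · rw [heq] at h1; linarith
      · have := ht_anti hsQ hQ hbd hsd hgt
        linarith
  · rintro ⟨h2, bs₁, bs₂, hbs, rfl, rfl⟩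
    subst hbs
    exact hullBlock_of_split' hs hg hd h2

end Pool.Agent.Helper20.Flip
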